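import Pool.Agent.Run7.h442.HD.Iface

/-! Project HD (helper442), piece LAD (helper651): numerical parts and the ladder kernel at small momenta. -/

set_option autoImplicit false
set_option linter.unusedSectionVars false

open scoped BigOperators Matrix
open MeasureTheory

namespace Run7.h651.HD

open Pool.Agent.Run7.h47 hiding mm mf ze V1 V2 ff
open Pool.Agent.W788.MFP.Four Pool.Agent.W788.BK
open Pool.Agent.W788.MFP.Form Pool.Agent.W788.MFP.Dos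

/-- the numerical part of the limit (after helper442's `T2.num_lim`) -/
theorem num_lim {C0 : ℝ} (hC0 : 1 ≤ C0) {c0 M w X X' r J0 S q B0 : ℝ} (hc0 : 0 < c0) (hM : 0 ≤ M) (hw0 : 0 ≤ w)
    (hr0 : 0 ≤ r) (hJ : c0 ≤ J0) (hS0 : 0 ≤ S) (hS1 : S ≤ C0) (hq0 : 0 ≤ q)
    (hq1 : q ≤ M ^ 2) (hX : |X + r - J0| ≤ 3 * w) (hw1 : 3 * w ≤ c0 / 2)
    (hXX : |X - X'| ≤ w * r)
    (hB : |B0 - 1 / 4 * q * S / (X + r) ^ 3| ≤ 1920 * M ^ 3 * C0 / c0 ^ 4 * w + 4 * M ^ 2 / c0 ^ 3 * w) :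
    |(1 + (X - X') / r) / (X + r) + B0 - (1 / J0 + q * S / (4 * J0 ^ 3))| ≤
      ((1 + M ^ 2 * C0 * (2 / c0) ^ 2) * (6 / c0 ^ 2) + 2 / c0 + 1920 * M ^ 3 * C0 / c0 ^ 4 +
        4 * M ^ 2 / c0 ^ 3) * w := by
  have hJp : 0 < J0 := hc0.trans_le hJ
  have hXr : c0 / 2 ≤ X + r := by
    have := (abs_le.1 hX).1
    linarith
  have hXp : 0 < X + r := by linarith
  set y := 1 / (X + r) with hy
  set z := 1 / J0 with hz
  have hy1 : y ≤ 2 / c0 := by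
    rw [hy, div_le_div_iff₀ hXp hc0]
    linarith
  have hz1 : z ≤ 2 / c0 := by
    rw [hz, div_le_div_iff₀ hJp hc0]
    linarith
  have hy0 : 0 < y := by positivity
  have hz0 : 0 < z := by positivity
  have hyz : |y - z| ≤ 6 / c0 ^ 2 * w := by
    have e1 : y - z = -(X + r - J0) * (y * z) := by
      rw [hy, hz]
      field_simp
      ring
    rw [e1, abs_mul, abs_neg, abs_of_pos (by positivity : 0 < y * z)]
    have h1 : z ≤ 1 / c0 := by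
      rw [hz]
      gcongr
    calc |X + r - J0| * (y * z) ≤ 3 * w * (2 / c0 * (1 / c0)) := by gcongr
      _ = _ := by field_simp; ring
  have hy3 : |y ^ 3 - z ^ 3| ≤ 3 * (2 / c0) ^ 2 * |y - z| := by
    have e1 : y ^ 3 - z ^ 3 = (y ^ 2 + y * z + z ^ 2) * (y - z) := by ring
    rw [e1, abs_mul, abs_of_pos (by positivity)]
    refine mul_le_mul_of_nonneg_right ?_ (abs_nonneg _)
    calc y ^ 2 + y * z + z ^ 2 ≤ (2 / c0) ^ 2 + 2 / c0 * (2 / c0) + (2 / c0) ^ 2 := by gcongr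
      _ = _ := by ring
  have hδ : |(X - X') / r * y| ≤ 2 / c0 * w := by
    rw [abs_mul, abs_of_pos hy0, abs_div, abs_of_nonneg hr0]
    have h1 : |X - X'| / r ≤ w := div_le_of_le_mul₀ hr0 hw0 hXX
    calc |X - X'| / r * y ≤ w * (2 / c0) := mul_le_mul h1 hy1 hy0.le hw0
      _ = _ := by ring
  have e2 : (1 + (X - X') / r) / (X + r) + B0 - (1 / J0 + q * S / (4 * J0 ^ 3)) =
      (y - z) + (X - X') / r * y + (B0 - 1 / 4 * q * S / (X + r) ^ 3) +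
        1 / 4 * q * S * (y ^ 3 - z ^ 3) := by
    rw [hy, hz]
    field_simp
    ring
  rw [e2]
  have h4 : |1 / 4 * q * S * (y ^ 3 - z ^ 3)| ≤
      M ^ 2 * C0 * (2 / c0) ^ 2 * (6 / c0 ^ 2 * w) := by
    rw [abs_mul, abs_of_nonneg (by positivity : 0 ≤ 1 / 4 * q * S)]
    have h5 : 0 ≤ 6 / c0 ^ 2 * w := by positivity
    calc 1 / 4 * q * S * |y ^ 3 - z ^ 3| ≤ 1 / 4 * M ^ 2 * C0 * (3 * (2 / c0) ^ 2 * (6 / c0 ^ 2 * w)) := by
          gcongr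
          exact hy3.trans (by gcongr)
      _ = 3 / 4 * (M ^ 2 * C0 * (2 / c0) ^ 2 * (6 / c0 ^ 2 * w)) := by ring
      _ ≤ _ := by
          have : 0 ≤ M ^ 2 * C0 * (2 / c0) ^ 2 * (6 / c0 ^ 2 * w) := by positivity
          linarith
  have t1 := abs_add_le ((y - z) + (X - X') / r * y + (B0 - 1 / 4 * q * S / (X + r) ^ 3))
    (1 / 4 * q * S * (y ^ 3 - z ^ 3))
  have t2 := abs_add_le ((y - z) + (X - X') / r * y) (B0 - 1 / 4 * q * S / (X + r) ^ 3)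
  have t3 := abs_add_le (y - z) ((X - X') / r * y)
  refine t1.trans ?_
  have : ((1 + M ^ 2 * C0 * (2 / c0) ^ 2) * (6 / c0 ^ 2) + 2 / c0 + 1920 * M ^ 3 * C0 / c0 ^ 4 +
        4 * M ^ 2 / c0 ^ 3) * w = 6 / c0 ^ 2 * w + 2 / c0 * w + (1920 * M ^ 3 * C0 / c0 ^ 4 * w +
          4 * M ^ 2 / c0 ^ 3 * w) + M ^ 2 * C0 * (2 / c0) ^ 2 * (6 / c0 ^ 2 * w) := by ring
  rw [this]
  linarith

variable {d L : ℕ} [NeZero L]

/-- the ladder kernel at small momenta (after helper47's `lad`) -/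
theorem lad {ζ : ℂ} (hζ : 0 < ζ.im) (hζ1 : ζ.im ≤ 1) (j : Fin d → ℤ)
    (hj : 4 * sz L j ≤ ζ.im) (E0 err : ℝ) (hfree : ∀ i : Fin d,
      |(NN d L)⁻¹ * ∑ k : T d L, (2 * (ZMod.stdAddChar (k i) : ℂ).im) ^ 2 *
        (ζ.im ^ 3 * ‖gs ζ k‖ ^ 4) - 1 / 2 * (mS d E0).re| ≤ err) :
    |(GG ζ (0 : T d L) 0).im / ζ.im - (Kp ζ (mom d L j)).re -
      1 / 4 * (∑ i, ang L j i ^ 2) / ζ.im ^ 3 * (mS d E0).re| ≤
      120 * sz L j ^ 3 / ζ.im ^ 4 * (GG ζ (0 : T d L) 0).im +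
        1 / 2 * (∑ i, ang L j i ^ 2) / ζ.im ^ 3 * err := by
  have hN := NN_pos (d := d) (L := L)
  rw [Kp_re hζ]
  have h1 : |∑ k : T d L, ‖gs ζ k - gs ζ (k + mom d L j)‖ ^ 2 -
      ∑ k : T d L, D0 j k ^ 2 * ‖gs ζ k‖ ^ 4| ≤
      240 * sz L j ^ 3 / ζ.im * ∑ k : T d L, ‖gs ζ k‖ ^ 4 := by
    rw [← Finset.sum_sub_distrib, Finset.mul_sum]
    refine (Finset.abs_sum_le_sum_abs _ _).trans (Finset.sum_le_sum fun k _ => ?_)
    exact gs_shift hζ hζ1 j hj k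
  have h2 : |(NN d L)⁻¹ * ∑ k : T d L, D0 j k ^ 2 * ‖gs ζ k‖ ^ 4 -
      1 / 2 * (∑ i, ang L j i ^ 2) / ζ.im ^ 3 * (mS d E0).re| ≤
      (∑ i, ang L j i ^ 2) / ζ.im ^ 3 * err := by
    rw [D0_sum hζ, Finset.mul_sum]
    have e1 : ∑ i, (NN d L)⁻¹ * (ang L j i ^ 2 * ∑ k : T d L,
        (2 * (ZMod.stdAddChar (k i) : ℂ).im) ^ 2 * ‖gs ζ k‖ ^ 4) -
        1 / 2 * (∑ i, ang L j i ^ 2) / ζ.im ^ 3 * (mS d E0).re =
        ∑ i, ang L j i ^ 2 / ζ.im ^ 3 * ((NN d L)⁻¹ * ∑ k : T d L,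
          (2 * (ZMod.stdAddChar (k i) : ℂ).im) ^ 2 * (ζ.im ^ 3 * ‖gs ζ k‖ ^ 4) -
            1 / 2 * (mS d E0).re) := by
      have e2 : 1 / 2 * (∑ i, ang L j i ^ 2) / ζ.im ^ 3 * (mS d E0).re =
          ∑ i, ang L j i ^ 2 / ζ.im ^ 3 * (1 / 2 * (mS d E0).re) := by
        rw [← Finset.sum_mul, ← Finset.sum_div]
        ring
      rw [e2, ← Finset.sum_sub_distrib]
      refine Finset.sum_congr rfl fun i _ => ?_
      have e3 : ∑ k : T d L, (2 * (ZMod.stdAddChar (k i) : ℂ).im) ^ 2 *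
          (ζ.im ^ 3 * ‖gs ζ k‖ ^ 4) = ζ.im ^ 3 * ∑ k : T d L,
          (2 * (ZMod.stdAddChar (k i) : ℂ).im) ^ 2 * ‖gs ζ k‖ ^ 4 := by
        rw [Finset.mul_sum]
        exact Finset.sum_congr rfl fun k _ => by ring
      rw [e3]
      field_simp
    rw [e1]
    refine (Finset.abs_sum_le_sum_abs _ _).trans ?_
    rw [Finset.sum_div, Finset.sum_mul]
    refine Finset.sum_le_sum fun i _ => ?_
    rw [abs_mul, abs_of_nonneg (by positivity : 0 ≤ ang L j i ^ 2 / ζ.im ^ 3)]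
    exact mul_le_mul_of_nonneg_left (hfree i) (by positivity)
  have h3 := sum_four (d := d) (L := L) hζ
  have h4 : |(NN d L)⁻¹ * ∑ k : T d L, ‖gs ζ k - gs ζ (k + mom d L j)‖ ^ 2 -
      (NN d L)⁻¹ * ∑ k : T d L, D0 j k ^ 2 * ‖gs ζ k‖ ^ 4| ≤
      240 * sz L j ^ 3 / ζ.im * ((GG ζ (0 : T d L) 0).im / ζ.im ^ 3) := by
    rw [← mul_sub, abs_mul, abs_of_nonneg (inv_nonneg.2 hN.le)]
    calc (NN d L)⁻¹ * |∑ k : T d L, ‖gs ζ k - gs ζ (k + mom d L j)‖ ^ 2 -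
        ∑ k : T d L, D0 j k ^ 2 * ‖gs ζ k‖ ^ 4| ≤
        (NN d L)⁻¹ * (240 * sz L j ^ 3 / ζ.im * ∑ k : T d L, ‖gs ζ k‖ ^ 4) := by gcongr
      _ = 240 * sz L j ^ 3 / ζ.im * ((NN d L)⁻¹ * ∑ k : T d L, ‖gs ζ k‖ ^ 4) := by ring
      _ ≤ _ := by
          refine mul_le_mul_of_nonneg_left h3 ?_
          have := sz_nonneg (L := L) j
          positivity
  have h5 := abs_add_le ((NN d L)⁻¹ * ∑ k : T d L, ‖gs ζ k - gs ζ (k + mom d L j)‖ ^ 2 -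
      (NN d L)⁻¹ * ∑ k : T d L, D0 j k ^ 2 * ‖gs ζ k‖ ^ 4)
      ((NN d L)⁻¹ * ∑ k : T d L, D0 j k ^ 2 * ‖gs ζ k‖ ^ 4 -
      1 / 2 * (∑ i, ang L j i ^ 2) / ζ.im ^ 3 * (mS d E0).re)
  have h6 : 1 / 2 * ((NN d L)⁻¹ * ∑ k : T d L, ‖gs ζ k - gs ζ (k + mom d L j)‖ ^ 2) -
      1 / 4 * (∑ i, ang L j i ^ 2) / ζ.im ^ 3 * (mS d E0).re =
      1 / 2 * (((NN d L)⁻¹ * ∑ k : T d L, ‖gs ζ k - gs ζ (k + mom d L j)‖ ^ 2 -
      (NN d L)⁻¹ * ∑ k : T d L, D0 j k ^ 2 * ‖gs ζ k‖ ^ 4) +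
      ((NN d L)⁻¹ * ∑ k : T d L, D0 j k ^ 2 * ‖gs ζ k‖ ^ 4 -
      1 / 2 * (∑ i, ang L j i ^ 2) / ζ.im ^ 3 * (mS d E0).re)) := by ring
  rw [h6, abs_mul, abs_of_pos (by norm_num : (0 : ℝ) < 1 / 2)]
  have h7 : 120 * sz L j ^ 3 / ζ.im ^ 4 * (GG ζ (0 : T d L) 0).im =
      1 / 2 * (240 * sz L j ^ 3 / ζ.im * ((GG ζ (0 : T d L) 0).im / ζ.im ^ 3)) := by
    field_simp
    ring
  rw [h7]
  have h8 : 1 / 2 * (∑ i, ang L j i ^ 2) / ζ.im ^ 3 * err =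
      1 / 2 * ((∑ i, ang L j i ^ 2) / ζ.im ^ 3 * err) := by ring
  rw [h8]
  linarith

/-- `Im m / η` is decreasing in `η` -/
theorem im_mono {x η η' : ℝ} (h0 : 0 < η) (h : η ≤ η') :
    (GG ((x : ℂ) + (η' : ℂ) * Complex.I) (0 : T d L) 0).im / η' ≤
      (GG ((x : ℂ) + (η : ℂ) * Complex.I) (0 : T d L) 0).im / η := by
  have hη' : 0 < η' := h0.trans_le h
  have key : ∀ y : ℝ, 0 < y → (GG ((x : ℂ) + (y : ℂ) * Complex.I) (0 : T d L) 0).im / y =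
      (NN d L)⁻¹ * ∑ k : T d L, ((adj k - x) ^ 2 + y ^ 2)⁻¹ := by
    intro y hy
    have him : ((x : ℂ) + (y : ℂ) * Complex.I).im = y := by simp
    have hy' : 0 < ((x : ℂ) + (y : ℂ) * Complex.I).im := by rw [him]; exact hy
    rw [GG_00, ← Complex.ofReal_inv, Complex.im_ofReal_mul, Complex.im_sum, mul_div_assoc, Finset.sum_div]
    congr 1
    refine Finset.sum_congr rfl fun k _ => ?_
    rw [gs_im _ hy', him]
    unfold gs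
    rw [norm_inv, inv_pow, ← Complex.normSq_eq_norm_sq]
    have e1 : Complex.normSq ((adj k : ℂ) - ((x : ℂ) + (y : ℂ) * Complex.I)) = (adj k - x) ^ 2 + y ^ 2 := by
      rw [Complex.normSq_apply]
      simp
      ring
    rw [e1]
    field_simp
  rw [key η h0, key η' hη']
  have hN := NN_pos (d := d) (L := L)
  refine mul_le_mul_of_nonneg_left (Finset.sum_le_sum fun k _ => ?_) (inv_nonneg.2 hN.le)
  have h2 : 0 < (adj k - x) ^ 2 + η ^ 2 := by positivity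
  refine inv_anti₀ h2 ?_
  have h3 : η ^ 2 ≤ η' ^ 2 := pow_le_pow_left₀ h0.le h 2
  linarith

end Run7.h651.HD
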