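import Pool.Agent.Run7.h651.HD.A

/-! Project HD (helper442), piece LAD (helper651): one instance of the limit. -/

set_option autoImplicit false
set_option linter.unusedSectionVars false

open scoped BigOperators Matrix
open MeasureTheory

namespace Run7.h651.HD

open Pool.Agent.Run7.h47 hiding mm mf ze V1 V2 ff teq kap eA eB eA_le eB_le kap_sub g2 g2_nonneg mm_im_nonneg ze_im
  ze_re ze_pos ze_im_ge V1_nonneg V2_nonneg num_lim lad
open Pool.Agent.W788.MFP.Four Pool.Agent.W788.BK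
open Pool.Agent.W788.MFP.Form Pool.Agent.W788.MFP.Dos
open Run7.h108.GL (Law Γ mm mf ze V1 V2 ff teq kap eA eB eA_le eB_le kap_sub g2 g2_nonneg mm_im_nonneg ze_im
  ze_re ze_pos ze_im_ge V1_nonneg V2_nonneg)

section
variable {d L : ℕ} [NeZero L] {σ E t : ℝ} [Law]

/-- the ladder identity in normalized form -/
theorem tf_eq (ht : 0 < t) (hσ : 0 < σ ^ 2) {s : ℝ} (hs : 0 < s) (p : T d L)
    (hB : (1 - σ ^ 2 * kap σ E t p) / ((s * t / σ ^ 2 : ℝ) : ℂ) ≠ 0) :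
    (s * t : ℝ) * ff σ E t p = (σ ^ 2 * kap σ E t p + σ ^ 4 * (eA σ E t p + eB σ E t p)) /
      ((1 - σ ^ 2 * kap σ E t p) / ((s * t / σ ^ 2 : ℝ) : ℂ)) := by
  have h := teq (σ := σ) (E := E) ht p
  have hσ' : (σ : ℂ) ^ 2 ≠ 0 := by exact_mod_cast hσ.ne'
  have ht' : (t : ℂ) ≠ 0 := by exact_mod_cast ht.ne'
  have hs' : (s : ℂ) ≠ 0 := by exact_mod_cast hs.ne'
  rw [eq_div_iff hB]
  push_cast
  field_simp
  linear_combination ((σ : ℂ) ^ 2) * h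

variable {w s K : ℝ}

theorem gX_le (ht : 0 < t) (hσ : 0 < σ ^ 2) :
    g2 d L σ E t * (mm d L σ E t).im ≤ (mf d L σ E t).im / σ ^ 2 := by
  have hζ0 := ze_pos (d := d) (L := L) (σ := σ) (E := E) ht
  have hmf0 : 0 ≤ (mf d L σ E t).im := GG_im_nonneg hζ0
  unfold g2
  have h2 : σ ^ 2 * (mm d L σ E t).im ≤ (ze d L σ E t).im := by
    rw [ze_im]
    linarith
  rw [div_mul_eq_mul_div, div_le_div_iff₀ hζ0 hσ]
  calc (mf d L σ E t).im * (mm d L σ E t).im * σ ^ 2 =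
      (mf d L σ E t).im * (σ ^ 2 * (mm d L σ E t).im) := by ring
    _ ≤ (mf d L σ E t).im * (ze d L σ E t).im := mul_le_mul_of_nonneg_left h2 hmf0

/-- the error terms -/
theorem err_le (ht : 0 < t) (hσ : 0 < σ ^ 2) (hK : |σ| ≤ K) (hw : 0 ≤ w) (hs : 0 < s) (p : T d L)
    (hmf : s * (mf d L σ E t).im ≤ 2)
    (hV1 : V1 d L σ E t ≤ w * (s * t ^ 3))
    (hV2 : V2 σ E t p ≤ w * (s * t)) :
    ‖(σ : ℂ) ^ 4 * (eA σ E t p + eB σ E t p)‖ ≤ 2 * (K ^ 3 * Real.sqrt (2 * w)) := by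
  have hζ0 := ze_pos (d := d) (L := L) (σ := σ) (E := E) ht
  have hmf0 : 0 ≤ (mf d L σ E t).im := GG_im_nonneg hζ0
  have h1 := gX_le (d := d) (L := L) (E := E) ht hσ
  have hX0 : 0 ≤ (mm d L σ E t).im := mm_im_nonneg ht
  have h5 : 0 ≤ g2 d L σ E t * (mm d L σ E t).im := mul_nonneg (g2_nonneg ht) hX0
  have hσ0 : σ ≠ 0 := fun h => by rw [h] at hσ; norm_num at hσ
  have hK0 : 0 ≤ K := (abs_nonneg σ).trans hK
  have hσ6 : σ ^ 6 ≤ K ^ 6 := by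
    calc σ ^ 6 = |σ| ^ 6 := by rw [show (6 : ℕ) = 2 * 3 by norm_num, pow_mul, pow_mul, sq_abs]
      _ ≤ K ^ 6 := pow_le_pow_left₀ (abs_nonneg σ) hK 6
  have hfin : σ ^ 6 * (w * (s * (mf d L σ E t).im)) ≤ (K ^ 3 * Real.sqrt (2 * w)) ^ 2 := by
    have e1 : (K ^ 3 * Real.sqrt (2 * w)) ^ 2 = K ^ 6 * (w * 2) := by
      rw [mul_pow, Real.sq_sqrt (by positivity)]
      ring
    rw [e1]
    gcongr
  have hA : (σ ^ 4 * ‖eA σ E t p‖) ^ 2 ≤ (K ^ 3 * Real.sqrt (2 * w)) ^ 2 := by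
    have h2 := eA_le (σ := σ) (E := E) ht p
    calc (σ ^ 4 * ‖eA σ E t p‖) ^ 2 = σ ^ 8 * ‖eA σ E t p‖ ^ 2 := by ring
      _ ≤ σ ^ 8 * ((g2 d L σ E t * V1 d L σ E t) * ((t ^ 2)⁻¹ * ((mm d L σ E t).im / t))) := by
          gcongr
      _ = σ ^ 8 / t ^ 3 * V1 d L σ E t * (g2 d L σ E t * (mm d L σ E t).im) := by
          field_simp
      _ ≤ σ ^ 8 / t ^ 3 * (w * (s * t ^ 3)) * ((mf d L σ E t).im / σ ^ 2) := by gcongr
      _ = σ ^ 6 * (w * (s * (mf d L σ E t).im)) := by field_simp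
      _ ≤ _ := hfin
  have hB : (σ ^ 4 * ‖eB σ E t p‖) ^ 2 ≤ (K ^ 3 * Real.sqrt (2 * w)) ^ 2 := by
    have h2 := eB_le (σ := σ) (E := E) ht p
    have hV0 := V2_nonneg (σ := σ) (E := E) (t := t) p
    calc (σ ^ 4 * ‖eB σ E t p‖) ^ 2 = σ ^ 8 * ‖eB σ E t p‖ ^ 2 := by ring
      _ ≤ σ ^ 8 * ((g2 d L σ E t * V2 σ E t p) * ((mm d L σ E t).im / t)) := by
          gcongr
      _ = σ ^ 8 / t * V2 σ E t p * (g2 d L σ E t * (mm d L σ E t).im) := by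
          field_simp
      _ ≤ σ ^ 8 / t * (w * (s * t)) * ((mf d L σ E t).im / σ ^ 2) := by gcongr
      _ = σ ^ 6 * (w * (s * (mf d L σ E t).im)) := by field_simp
      _ ≤ _ := hfin
  have hA' := (abs_le_of_sq_le_sq' hA (by positivity)).2
  have hB' := (abs_le_of_sq_le_sq' hB (by positivity)).2
  rw [norm_mul, norm_pow, Complex.norm_real, Real.norm_eq_abs, ← abs_pow,
    abs_of_nonneg (by positivity)]
  calc σ ^ 4 * ‖eA σ E t p + eB σ E t p‖ ≤ σ ^ 4 * (‖eA σ E t p‖ + ‖eB σ E t p‖) := by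
        gcongr
        exact norm_add_le _ _
    _ ≤ _ := by linarith

/-- the error of the ladder kernel -/
theorem kap_le (ht : 0 < t) (hσ : 0 < σ ^ 2) (hK : |σ| ≤ K) (hw : 0 ≤ w) (hs : 0 < s) (p : T d L)
    {c0 : ℝ} (hc0 : 0 < c0)
    (hmf : s * (mf d L σ E t).im ≤ 2)
    (hη : c0 / 2 * σ ^ 2 / s ≤ (ze d L σ E t).im)
    (hV1 : V1 d L σ E t ≤ w * (s * t ^ 3)) :
    ‖(σ : ℂ) ^ 2 * (kap σ E t p - Kp (ze d L σ E t) p)‖ ≤
      2 * (K ^ 3 * Real.sqrt (2 * w)) / c0 * (s * t / σ ^ 2) := by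
  have hζ0 := ze_pos (d := d) (L := L) (σ := σ) (E := E) ht
  have hmf0 : 0 ≤ (mf d L σ E t).im := GG_im_nonneg hζ0
  have h1 := gX_le (d := d) (L := L) (E := E) ht hσ
  have hX0 : 0 ≤ (mm d L σ E t).im := mm_im_nonneg ht
  have h5 : 0 ≤ g2 d L σ E t * (mm d L σ E t).im := mul_nonneg (g2_nonneg ht) hX0
  have hσ0 : σ ≠ 0 := fun h => by rw [h] at hσ; norm_num at hσ
  have hK0 : 0 ≤ K := (abs_nonneg σ).trans hK
  have hσ6 : σ ^ 6 ≤ K ^ 6 := by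
    calc σ ^ 6 = |σ| ^ 6 := by rw [show (6 : ℕ) = 2 * 3 by norm_num, pow_mul, pow_mul, sq_abs]
      _ ≤ K ^ 6 := pow_le_pow_left₀ (abs_nonneg σ) hK 6
  have hη' : ((ze d L σ E t).im)⁻¹ ≤ 2 * s / (c0 * σ ^ 2) := by
    have h3 : 0 < c0 / 2 * σ ^ 2 / s := by positivity
    have h4 := inv_anti₀ h3 hη
    refine h4.trans (le_of_eq ?_)
    field_simp
  have h2 := kap_sub (σ := σ) (E := E) ht p
  have hsq : (σ ^ 2 * ‖kap σ E t p - Kp (ze d L σ E t) p‖) ^ 2 ≤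
      (2 * (K ^ 3 * Real.sqrt (2 * w)) / c0 * (s * t / σ ^ 2)) ^ 2 := by
    have h0 : 0 ≤ ((ze d L σ E t).im)⁻¹ := by positivity
    calc (σ ^ 2 * ‖kap σ E t p - Kp (ze d L σ E t) p‖) ^ 2 =
        σ ^ 4 * ‖kap σ E t p - Kp (ze d L σ E t) p‖ ^ 2 := by ring
      _ ≤ σ ^ 4 * (σ ^ 4 * (g2 d L σ E t * V1 d L σ E t) *
          (t⁻¹ * ((ze d L σ E t).im)⁻¹ ^ 2 * (mm d L σ E t).im)) := by gcongr
      _ = σ ^ 8 / t * V1 d L σ E t * (g2 d L σ E t * (mm d L σ E t).im) *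
          ((ze d L σ E t).im)⁻¹ ^ 2 := by
          rw [div_eq_mul_inv]
          ring
      _ ≤ σ ^ 8 / t * (w * (s * t ^ 3)) * ((mf d L σ E t).im / σ ^ 2) * (2 * s / (c0 * σ ^ 2)) ^ 2 := by
          gcongr
      _ = 4 / c0 ^ 2 * (s * t / σ ^ 2) ^ 2 * (σ ^ 6 * (w * (s * (mf d L σ E t).im))) := by
          field_simp
          ring
      _ ≤ 4 / c0 ^ 2 * (s * t / σ ^ 2) ^ 2 * (K ^ 6 * (w * 2)) := by gcongr
      _ = _ := by
          have e1 : (K ^ 3 * Real.sqrt (2 * w)) ^ 2 = K ^ 6 * (w * 2) := by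
            rw [mul_pow, Real.sq_sqrt (by positivity)]
            ring
          rw [← e1]
          ring
  rw [norm_mul, norm_pow, Complex.norm_real, Real.norm_eq_abs, sq_abs]
  exact (abs_le_of_sq_le_sq' hsq (by positivity)).2

/-- the constant in the numerical part -/
noncomputable def K1 (C0 c0 M : ℝ) : ℝ :=
  (1 + M ^ 2 * C0 * (2 / c0) ^ 2) * (6 / c0 ^ 2) + 2 / c0 + 1920 * M ^ 3 * C0 / c0 ^ 4 +
    4 * M ^ 2 / c0 ^ 3

/-- one instance of the limit -/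
theorem inst (ht : 0 < t) (hK1 : 1 ≤ K) (hK : |σ| ≤ K) (hK' : 1 / K ≤ |σ|) (hw : 0 ≤ w) (hs : 1 ≤ s)
    {M c0 w' μ G err r : ℝ} (hr : r = s * t / σ ^ 2)
    (hc0 : 0 < c0) (hM : 0 ≤ M) (hw0 : 0 < w') (hw1 : w' ≤ 1) (hwc : 3 * w' ≤ c0 / 2)
    (hwM : 4 * (M * K) * w' ≤ c0 / 2) (hwK : w * K ^ 2 ≤ w')
    (hrw : r ≤ w' ^ 2)
    (hG : c0 ≤ G) (hG1 : G ≤ 1)
    (hη1 : (ze d L σ E t).im ≤ 1)
    (hmm : ‖mm d L σ E t - mf d L σ E t‖ ≤ w * t)
    (hV1 : V1 d L σ E t ≤ w * (s * t ^ 3))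
    (hV2 : ∀ p : T d L, V2 σ E t p ≤ w * (s * t))
    (hX : |s * (mf d L σ E t).im - G| ≤ w')
    (hS : |s * (mS d E).re - 2 * G| ≤ w')
    (herr0 : 0 ≤ err) (herr : s * err ≤ w' / 2)
    (hfree : ∀ i : Fin d, |(NN d L)⁻¹ * ∑ k : T d L, (2 * (ZMod.stdAddChar (k i) : ℂ).im) ^ 2 *
        ((ze d L σ E t).im ^ 3 * ‖gs (ze d L σ E t) k‖ ^ 4) - 1 / 2 * (mS d E).re| ≤ err)
    (hμ : μ ≤ 1 / 2)
    (hKw : K1 2 c0 (M * K) * w' + 2 * (K ^ 3 * Real.sqrt (2 * w)) / c0 ≤ μ)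
    (hA : (1 / c0 + (M * K) ^ 2 / (2 * c0 ^ 2) + 1) * w' ≤ μ)
    (hE : 2 * (K ^ 3 * Real.sqrt (2 * w)) ≤ μ)
    (j : Fin d → ℤ) (hj : s * sz L j ≤ M * Real.sqrt (s * t)) :
    ‖(s * t : ℝ) * ff σ E t (mom d L j) -
      ((1 / (1 / G + ((∑ i, ang L j i ^ 2) * s / (σ ^ 2 * t)) * (2 * G) / (4 * G ^ 3)) : ℝ) : ℂ)‖ ≤
      (4 / 1 + 2 / 1 ^ 2) * μ := by
  have hs0 : 0 < s := by linarith
  have hK0 : 0 < K := by linarith
  have hσa : 0 < |σ| := (by positivity : 0 < 1 / K).trans_le hK'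
  have hσ0 : σ ≠ 0 := abs_pos.1 hσa
  have hσ : 0 < σ ^ 2 := by positivity
  have hσK : σ ^ 2 ≤ K ^ 2 := by
    rw [← sq_abs]
    exact pow_le_pow_left₀ (abs_nonneg σ) hK 2
  have hσi : 1 / σ ^ 2 ≤ K ^ 2 := by
    rw [← sq_abs, div_le_iff₀ (by positivity)]
    have h1 : 1 ≤ K * |σ| := by
      rw [div_le_iff₀ hK0] at hK'
      linarith
    have h2 := pow_le_pow_left₀ (by norm_num) h1 2
    linarith
  have hr0 : 0 < r := by rw [hr]; positivity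
  have htr : t = r * σ ^ 2 / s := by rw [hr]; field_simp
  have hww : w' ^ 2 ≤ w' := by nlinarith
  have hrw1 : r ≤ w' := hrw.trans hww
  have hsr : Real.sqrt r ≤ w' := by
    rw [Real.sqrt_le_left hw0.le]
    exact hrw
  have hζ0 := ze_pos (d := d) (L := L) (σ := σ) (E := E) ht
  set X := (mm d L σ E t).im with hXd
  set X' := (mf d L σ E t).im with hX'd
  set ζ := ze d L σ E t with hζd
  have hX0 : 0 ≤ X := mm_im_nonneg ht
  have hX'0 : 0 ≤ X' := GG_im_nonneg hζ0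
  have hX'1 : s * X' ≤ 2 := by
    have := (abs_le.1 hX).2
    linarith
  have hGp : 0 < G := hc0.trans_le hG
  have hXX : |s * X - s * X'| ≤ w' * r := by
    have h1 : |X - X'| ≤ w * t := by
      rw [hXd, hX'd, ← Complex.sub_im]
      exact (Complex.abs_im_le_norm _).trans hmm
    have h2 : |s * X - s * X'| = s * |X - X'| := by
      rw [← mul_sub, abs_mul, abs_of_pos hs0]
    rw [h2]
    calc s * |X - X'| ≤ s * (w * t) := by gcongr
      _ = w * σ ^ 2 * r := by rw [hr]; field_simp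
      _ ≤ w * K ^ 2 * r := by gcongr
      _ ≤ w' * r := by gcongr
  have hXJ : |s * X + r - G| ≤ 3 * w' := by
    have e1 : s * X + r - G = (s * X - s * X') + (s * X' - G) + r := by ring
    rw [e1]
    have h1 := abs_add_le ((s * X - s * X') + (s * X' - G)) r
    have h2 := abs_add_le (s * X - s * X') (s * X' - G)
    have h3 : w' * r ≤ w' := by
      have : r ≤ 1 := hrw1.trans hw1
      nlinarith
    rw [abs_of_pos hr0] at h1
    linarith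
  have hXr : c0 / 2 ≤ s * X + r := by
    have := (abs_le.1 hXJ).1
    linarith
  have hXp : 0 < s * X + r := by linarith
  have hη : ζ.im = σ ^ 2 * (s * X + r) / s := by
    rw [hζd, ze_im, ← hXd, hr]
    field_simp
    ring
  have hη2 : c0 / 2 * σ ^ 2 / s ≤ ζ.im := by
    rw [hη]
    have : c0 / 2 * σ ^ 2 ≤ σ ^ 2 * (s * X + r) := by
      rw [mul_comm]
      gcongr
    gcongr
  -- the momentum
  set Θ := sz L j with hΘ
  set A2 := ∑ i, ang L j i ^ 2 with hA2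
  have hΘ0 : 0 ≤ Θ := sz_nonneg j
  have hA20 : 0 ≤ A2 := Finset.sum_nonneg fun _ _ => sq_nonneg _
  have hst : Real.sqrt (s * t) = |σ| * Real.sqrt r := by
    have e1 : s * t = σ ^ 2 * r := by rw [hr]; field_simp
    rw [e1, Real.sqrt_mul hσ.le, Real.sqrt_sq_eq_abs]
  rw [hst] at hj
  have hΘ4 : 4 * Θ ≤ ζ.im := by
    refine le_trans ?_ hη2
    rw [le_div_iff₀ hs0]
    calc 4 * Θ * s = 4 * (s * Θ) := by ring
      _ ≤ 4 * (M * (|σ| * Real.sqrt r)) := by gcongr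
      _ ≤ 4 * (M * (|σ| * w')) := by gcongr
      _ = 4 * M * w' * |σ| * 1 := by ring
      _ ≤ 4 * M * w' * |σ| * (K * |σ|) := by
          have h1 : 1 ≤ K * |σ| := by
            rw [div_le_iff₀ hK0] at hK'
            linarith
          gcongr
      _ = (4 * (M * K) * w') * |σ| ^ 2 := by ring
      _ ≤ c0 / 2 * σ ^ 2 := by
          rw [sq_abs]
          gcongr
  set q := A2 * s / (σ ^ 2 * t) with hq
  have hq0 : 0 ≤ q := by positivity
  have hΘs : (s * Θ) ^ 2 ≤ M ^ 2 * (σ ^ 2 * r) := by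
    calc (s * Θ) ^ 2 ≤ (M * (|σ| * Real.sqrt r)) ^ 2 := pow_le_pow_left₀ (by positivity) hj 2
      _ = M ^ 2 * (|σ| ^ 2 * Real.sqrt r ^ 2) := by ring
      _ = _ := by rw [Real.sq_sqrt hr0.le, sq_abs]
  have hq1 : q ≤ (M * K) ^ 2 := by
    have h1 : q = (s ^ 2 * A2) / (s * t * σ ^ 2) := by
      rw [hq]
      field_simp
    rw [h1, div_le_iff₀ (by positivity)]
    calc s ^ 2 * A2 ≤ s ^ 2 * Θ ^ 2 := by
          have := ang_sq (L := L) j
          gcongr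
      _ = (s * Θ) ^ 2 := by ring
      _ ≤ M ^ 2 * (σ ^ 2 * r) := hΘs
      _ = M ^ 2 * (1 / σ ^ 2) * (s * t * σ ^ 2) := by rw [hr]; field_simp
      _ ≤ M ^ 2 * K ^ 2 * (s * t * σ ^ 2) := by gcongr
      _ = _ := by ring
  have hA2q : A2 = q * (σ ^ 4 * r) / s ^ 2 := by
    rw [hq, hr]
    field_simp
  -- the ladder
  set Kr := (Kp ζ (mom d L j)).re with hKr
  set B0 := σ ^ 2 / r * (X' / ζ.im - Kr) with hB0
  have hlad := lad hζ0 hη1 j hΘ4 E err hfree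
  have hB0e : |B0 - 1 / 4 * q * (2 * G) / (s * X + r) ^ 3| ≤
      1920 * (M * K) ^ 3 * 2 / c0 ^ 4 * w' + 4 * (M * K) ^ 2 / c0 ^ 3 * w' := by
    have e1 : B0 - 1 / 4 * q * (s * (mS d E).re) / (s * X + r) ^ 3 = σ ^ 2 / r *
        (X' / ζ.im - Kr - 1 / 4 * A2 / ζ.im ^ 3 * (mS d E).re) := by
      rw [hB0, hη, hA2q]
      field_simp
    have e0 : B0 - 1 / 4 * q * (2 * G) / (s * X + r) ^ 3 =
        (B0 - 1 / 4 * q * (s * (mS d E).re) / (s * X + r) ^ 3) +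
        1 / 4 * q * (s * (mS d E).re - 2 * G) / (s * X + r) ^ 3 := by
      ring
    have h0 : |1 / 4 * q * (s * (mS d E).re - 2 * G) / (s * X + r) ^ 3| ≤ 2 * (M * K) ^ 2 / c0 ^ 3 * w' := by
      rw [abs_div, abs_mul, abs_of_nonneg (by positivity : 0 ≤ 1 / 4 * q),
        abs_of_pos (by positivity : 0 < (s * X + r) ^ 3)]
      calc 1 / 4 * q * |s * (mS d E).re - 2 * G| / (s * X + r) ^ 3 ≤
          1 / 4 * (M * K) ^ 2 * w' / (c0 / 2) ^ 3 := by gcongr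
        _ = _ := by field_simp; ring
    have h1 : |B0 - 1 / 4 * q * (s * (mS d E).re) / (s * X + r) ^ 3| ≤
        1920 * (M * K) ^ 3 * 2 / c0 ^ 4 * w' + 2 * (M * K) ^ 2 / c0 ^ 3 * w' := by
      rw [e1, abs_mul, abs_of_pos (by positivity : 0 < σ ^ 2 / r)]
      have h3 : σ ^ 2 / r * (120 * Θ ^ 3 / ζ.im ^ 4 * X') ≤ 1920 * (M * K) ^ 3 * 2 / c0 ^ 4 * w' := by
        have hj3 : (s * Θ) ^ 3 ≤ M ^ 3 * (|σ| ^ 3 * (r * w')) := by
          calc (s * Θ) ^ 3 ≤ (M * (|σ| * Real.sqrt r)) ^ 3 := pow_le_pow_left₀ (by positivity) hj 3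
            _ = M ^ 3 * (|σ| ^ 3 * (Real.sqrt r ^ 2 * Real.sqrt r)) := by ring
            _ = M ^ 3 * (|σ| ^ 3 * (r * Real.sqrt r)) := by rw [Real.sq_sqrt hr0.le]
            _ ≤ _ := by gcongr
        have hσ3 : |σ| ^ 3 / (σ ^ 2) ^ 3 ≤ K ^ 3 := by
          rw [← sq_abs, div_le_iff₀ (by positivity)]
          have h1 : 1 ≤ K * |σ| := by
            rw [div_le_iff₀ hK0] at hK'
            linarith
          have h2 := pow_le_pow_left₀ (by norm_num) h1 3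
          calc |σ| ^ 3 = |σ| ^ 3 * 1 ^ 3 := by ring
            _ ≤ |σ| ^ 3 * (K * |σ|) ^ 3 := by gcongr
            _ = _ := by ring
        calc σ ^ 2 / r * (120 * Θ ^ 3 / ζ.im ^ 4 * X') =
            120 * (s * Θ) ^ 3 * (s * X') / (r * (σ ^ 2) ^ 3 * (s * X + r) ^ 4) := by
              rw [hη]
              field_simp
          _ ≤ 120 * (M ^ 3 * (|σ| ^ 3 * (r * w'))) * 2 / (r * (σ ^ 2) ^ 3 * (c0 / 2) ^ 4) := by
              gcongr
          _ = 1920 * M ^ 3 * 2 / c0 ^ 4 * w' * (|σ| ^ 3 / (σ ^ 2) ^ 3) := by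
              field_simp
              ring
          _ ≤ 1920 * M ^ 3 * 2 / c0 ^ 4 * w' * K ^ 3 := by gcongr
          _ = _ := by ring
      have h4 : σ ^ 2 / r * (1 / 2 * A2 / ζ.im ^ 3 * err) ≤ 2 * (M * K) ^ 2 / c0 ^ 3 * w' := by
        calc σ ^ 2 / r * (1 / 2 * A2 / ζ.im ^ 3 * err) =
            1 / 2 * q * (s * err) / (s * X + r) ^ 3 := by
              rw [hη, hA2q]
              field_simp
          _ ≤ 1 / 2 * (M * K) ^ 2 * (w' / 2) / (c0 / 2) ^ 3 := by gcongr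
          _ = _ := by
              field_simp
      calc σ ^ 2 / r * |X' / ζ.im - Kr - 1 / 4 * A2 / ζ.im ^ 3 * (mS d E).re| ≤
          σ ^ 2 / r * (120 * Θ ^ 3 / ζ.im ^ 4 * X' + 1 / 2 * A2 / ζ.im ^ 3 * err) := by
            gcongr
            exact hlad
        _ = σ ^ 2 / r * (120 * Θ ^ 3 / ζ.im ^ 4 * X') + σ ^ 2 / r * (1 / 2 * A2 / ζ.im ^ 3 * err) := by
            ring
        _ ≤ _ := add_le_add h3 h4
    rw [e0]
    refine (abs_add_le _ _).trans ((add_le_add h1 h0).trans (le_of_eq ?_))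
    ring
  -- the denominator
  set b := 1 / G + q * (2 * G) / (4 * G ^ 3) with hb
  have hb0 : 1 ≤ b := by
    have h1 : 1 ≤ 1 / G := by
      rw [le_div_iff₀ hGp]
      linarith
    have h2 : 0 ≤ q * (2 * G) / (4 * G ^ 3) := by positivity
    linarith
  have hb1 : b ≤ 1 / c0 + (M * K) ^ 2 / (2 * c0 ^ 2) := by
    have e1 : b = 1 / G + q / (2 * G ^ 2) := by
      rw [hb]
      field_simp
      ring
    rw [e1]
    gcongr
  have hnum := num_lim (C0 := 2) (by norm_num) (X := s * X) (X' := s * X') (r := r) (J0 := G) (S := 2 * G)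
    (q := q) (B0 := B0) hc0 (by positivity : 0 ≤ M * K)
    hw0.le hr0.le hG (by positivity) (by linarith) hq0 hq1 hXJ hwc hXX hB0e
  rw [← hb] at hnum
  set κp := kap σ E t (mom d L j) with hκp
  set Bc : ℂ := (1 - σ ^ 2 * κp) / ((r : ℝ) : ℂ) with hBc
  have hr' : (r : ℂ) ≠ 0 := by exact_mod_cast hr0.ne'
  have hKreal : Kp ζ (mom d L j) = (Kr : ℂ) := by
    apply Complex.ext
    · rw [Complex.ofReal_re]
    · rw [Complex.ofReal_im, Kp_im]
  have hkap := kap_le (σ := σ) (E := E) (d := d) (L := L) ht hσ hK hw hs0 (mom d L j)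
    (c0 := c0) hc0 hX'1 hη2 hV1
  rw [← hr, ← hζd, ← hκp, hKreal] at hkap
  have hBb : ‖Bc - (b : ℂ)‖ ≤ μ := by
    have e1 : Bc - (b : ℂ) = (((1 + (s * X - s * X') / r) / (s * X + r) + B0 - b : ℝ) : ℂ) -
        (σ : ℂ) ^ 2 * (κp - Kr) / r := by
      have e2 : (1 + (s * X - s * X') / r) / (s * X + r) + B0 = (1 - σ ^ 2 * Kr) / r := by
        rw [hB0, hη]
        field_simp
        ring
      rw [e2, hBc]
      push_cast
      field_simp
      ring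
    rw [e1]
    refine (norm_sub_le _ _).trans ?_
    rw [Complex.norm_real, Real.norm_eq_abs, norm_div, Complex.norm_real,
      Real.norm_of_nonneg hr0.le]
    have h2 : ‖(σ : ℂ) ^ 2 * (κp - Kr)‖ / r ≤ 2 * (K ^ 3 * Real.sqrt (2 * w)) / c0 := by
      rw [div_le_iff₀ hr0]
      exact hkap
    exact (add_le_add hnum h2).trans hKw
  have hAe : ‖(σ : ℂ) ^ 2 * κp - 1‖ ≤ μ := by
    have e1 : (σ : ℂ) ^ 2 * κp - 1 = -(r * Bc) := by
      rw [hBc]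
      field_simp
      ring
    have h1 : ‖Bc‖ ≤ b + 1 := by
      have h2 := norm_add_le (Bc - b) (b : ℂ)
      rw [sub_add_cancel, Complex.norm_real, Real.norm_of_nonneg (by linarith)] at h2
      linarith
    rw [e1, norm_neg, norm_mul, Complex.norm_real, Real.norm_of_nonneg hr0.le]
    refine le_trans ?_ hA
    calc r * ‖Bc‖ ≤ w' * (1 / c0 + (M * K) ^ 2 / (2 * c0 ^ 2) + 1) := by
          refine mul_le_mul hrw1 (h1.trans ?_) (norm_nonneg _) hw0.le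
          linarith
      _ = _ := by ring
  have hEe : ‖(σ : ℂ) ^ 4 * (eA σ E t (mom d L j) + eB σ E t (mom d L j))‖ ≤ μ :=
    (err_le (σ := σ) (E := E) (d := d) (L := L) ht hσ hK hw hs0 (mom d L j) hX'1 hV1 (hV2 _)).trans hE
  have hfin := fin_alg ((σ : ℂ) ^ 2 * κp)
    ((σ : ℂ) ^ 4 * (eA σ E t (mom d L j) + eB σ E t (mom d L j))) Bc b 1 μ
    (by norm_num) hb0 hμ hAe hEe hBb
  have htf := tf_eq (σ := σ) (E := E) (d := d) (L := L) ht hσ hs0 (mom d L j) (by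
    rw [← hr]
    exact hfin.1)
  rw [← hr] at htf
  rw [htf]
  exact hfin.2

end

end Run7.h651.HD
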